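import Pool.Agent.H539R3.IEP.Defs

/-!
# Kripke models, bisimulations, the Kripke criterion and strong Kripke completeness

Formulas, normal modal logics and interpolants are those of `H539R3.IEP`.
-/

namespace H539R3.KC
open H539R3.IEP H539R3.IEP.Form

universe u v

/-- Truth of a formula at a world of the Kripke model `(W, R, V)`. -/
def Sat {W : Type u} (R : W → W → Prop) (V : ℕ → W → Prop) : Form → W → Prop
  | var i, w => V i w
  | bot, _ => False
  | imp a b, w => Sat R V a w → Sat R V b w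
  | box a, w => ∀ v, R w v → Sat R V a v

/-- The Kripke frame `(W, R)` is a frame for `L`: it validates all formulas of `L`. -/
def FrameFor (L : Set Form) {W : Type u} (R : W → W → Prop) : Prop :=
  ∀ a, a ∈ L → ∀ V w, Sat R V a w

/-- `Z` is a `σ`-bisimulation between two Kripke models. -/
structure Bisim (σ : Set ℕ) {W₁ : Type u} {W₂ : Type v} (R₁ : W₁ → W₁ → Prop)
    (V₁ : ℕ → W₁ → Prop) (R₂ : W₂ → W₂ → Prop) (V₂ : ℕ → W₂ → Prop)
    (Z : W₁ → W₂ → Prop) : Prop where
  atoms : ∀ x y, Z x y → ∀ i, i ∈ σ → (V₁ i x ↔ V₂ i y)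
  forth : ∀ x y x', Z x y → R₁ x x' → ∃ y', R₂ y y' ∧ Z x' y'
  back : ∀ x y y', Z x y → R₂ y y' → ∃ x', R₁ x x' ∧ Z x' y'

/-- There are pointed models, based on Kripke frames for `L` and bisimilar with respect to the
common variables of `a` and `b`, such that `a` is true at the first and `b` is false at the second
point. -/
def BisimilarModels (L : Set Form) (a b : Form) : Prop :=
  ∃ (W₁ W₂ : Type u) (R₁ : W₁ → W₁ → Prop) (V₁ : ℕ → W₁ → Prop) (x₁ : W₁)
    (R₂ : W₂ → W₂ → Prop) (V₂ : ℕ → W₂ → Prop) (x₂ : W₂) (Z : W₁ → W₂ → Prop),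
    FrameFor L R₁ ∧ FrameFor L R₂ ∧ Bisim (a.vars ∩ b.vars) R₁ V₁ R₂ V₂ Z ∧ Z x₁ x₂ ∧
      Sat R₁ V₁ a x₁ ∧ Sat R₂ V₂ (neg b) x₂

/-- `L` has the Kripke criterion. -/
def KripkeCriterion (L : Set Form) : Prop :=
  ∀ a b : Form, ¬ HasInterpolant L a b ↔ BisimilarModels.{u} L a b

/-- The set of formulas `Γ` is `L`-consistent: `⊥` does not follow in `L` from finitely many
members `a₁, …, aₙ` of `Γ`, i.e. `a₁ → (a₂ → … → (aₙ → ⊥))` is never in `L`. -/
def Consistent (L : Set Form) (Γ : Set Form) : Prop :=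
  ∀ l : List Form, (∀ a, a ∈ l → a ∈ Γ) → l.foldr imp bot ∉ L

/-- `L` is strongly Kripke complete: every `L`-consistent set of formulas is satisfied at some
point of some model based on a Kripke frame for `L`. -/
def StronglyKripkeComplete (L : Set Form) : Prop :=
  ∀ Γ : Set Form, Consistent L Γ →
    ∃ (W : Type u) (R : W → W → Prop) (V : ℕ → W → Prop) (x : W),
      FrameFor L R ∧ ∀ a, a ∈ Γ → Sat R V a x

/-- The Craig interpolation property. -/
def CIP (L : Set Form) : Prop := ∀ a b : Form, imp a b ∈ L → HasInterpolant L a b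

end H539R3.KC
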