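import Pool.Agent.H539R3.KC.Sep

/-!
# Interpolation for finite GL frames
-/

namespace H539R3.KC
open H539R3.IEP H539R3.IEP.Form

/-- Pointed models on finite transitive irreflexive frames. -/
structure GLModel where
  W : Type
  fin : Finite W
  R : W → W → Prop
  trans : ∀ x y z, R x y → R y z → R x z
  irr : ∀ x, ¬ R x x
  V : ℕ → W → Prop
  w : W

/-- The system of pointed finite GL-models. -/
def glSys : Sys where
  X := GLModel
  s M a := Sat M.R M.V a M.w
  s_bot _ h := h
  s_imp _ _ _ := Iff.rfl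

/-- Change of the distinguished point. -/
def GLModel.at (M : GLModel) (v : M.W) : GLModel := { M with w := v }

/-- In a finite GL-model a refuted boxed formula is refuted at a successor at which the boxed
formula is true. -/
theorem GLModel.exists_max (M : GLModel) (a : Form) (h : ¬ Sat M.R M.V (box a) M.w) :
    ∃ v, M.R M.w v ∧ ¬ Sat M.R M.V a v ∧ Sat M.R M.V (box a) v := by
  have hwf : WellFounded (fun x y => M.R y x) := by
    have := M.fin
    have : IsTrans M.W (fun x y => M.R y x) := ⟨fun x y z h1 h2 => M.trans z y x h2 h1⟩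
    have : Std.Irrefl (fun x y => M.R y x) := ⟨fun x => M.irr x⟩
    exact Finite.wellFounded_of_trans_of_irrefl _
  have hne : {v | M.R M.w v ∧ ¬ Sat M.R M.V a v}.Nonempty := by
    by_contra hcon
    rw [Set.not_nonempty_iff_eq_empty] at hcon
    apply h
    intro v hv
    by_contra hv2
    have : v ∈ ({v | M.R M.w v ∧ ¬ Sat M.R M.V a v} : Set M.W) := ⟨hv, hv2⟩
    rw [hcon] at this
    exact this
  obtain ⟨v, hv, hmin⟩ := hwf.has_min _ hne
  refine ⟨v, hv.1, hv.2, ?_⟩
  intro u hu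
  by_contra hu2
  exact hmin u ⟨M.trans _ _ _ hv.1 hu, hu2⟩ hu

/-- Subformulas. -/
def subf : Form → Set Form
  | var i => {var i}
  | bot => {bot}
  | imp a b => {imp a b} ∪ (subf a ∪ subf b)
  | box a => {box a} ∪ subf a

theorem subf_finite (a : Form) : (subf a).Finite := by
  induction a with
  | var i => exact Set.finite_singleton _
  | bot => exact Set.finite_singleton _
  | imp a b iha ihb => exact (Set.finite_singleton _).union (iha.union ihb)
  | box a ih => exact (Set.finite_singleton _).union ih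

theorem subf_self (a : Form) : a ∈ subf a := by
  cases a with
  | var i => exact rfl
  | bot => exact rfl
  | imp a b => exact Or.inl rfl
  | box a => exact Or.inl rfl

theorem subf_imp (c : Form) {a b : Form} (h : imp a b ∈ subf c) : a ∈ subf c ∧ b ∈ subf c := by
  induction c with
  | var i => exact absurd h (by simp [subf])
  | bot => exact absurd h (by simp [subf])
  | imp c d ihc ihd =>
    rcases h with h | h | h
    · obtain ⟨rfl, rfl⟩ : a = c ∧ b = d := by
        have h' : imp a b = imp c d := h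
        injection h' with h1 h2
        exact ⟨h1, h2⟩
      exact ⟨Or.inr (Or.inl (subf_self _)), Or.inr (Or.inr (subf_self _))⟩
    · exact ⟨Or.inr (Or.inl (ihc h).1), Or.inr (Or.inl (ihc h).2)⟩
    · exact ⟨Or.inr (Or.inr (ihd h).1), Or.inr (Or.inr (ihd h).2)⟩
  | box c ih =>
    rcases h with h | h
    · exact absurd h (by simp)
    · exact ⟨Or.inr (ih h).1, Or.inr (ih h).2⟩

theorem subf_box (c : Form) {a : Form} (h : box a ∈ subf c) : a ∈ subf c := by
  induction c with
  | var i => exact absurd h (by simp [subf])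
  | bot => exact absurd h (by simp [subf])
  | imp c d ihc ihd =>
    rcases h with h | h | h
    · exact absurd h (by simp)
    · exact Or.inr (Or.inl (ihc h))
    · exact Or.inr (Or.inr (ihd h))
  | box c ih =>
    rcases h with h | h
    · obtain rfl : a = c := by
        have h' : box a = box c := h
        injection h'
      exact Or.inr (subf_self _)
    · exact Or.inr (ih h)

theorem subf_var (c : Form) {i : ℕ} (h : var i ∈ subf c) : i ∈ c.vars := by
  induction c with
  | var j =>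
    have h' : var i = var j := h
    have h1 : i = j := by injection h'
    exact h1
  | bot => exact absurd h (by simp [subf])
  | imp c d ihc ihd =>
    rcases h with h | h | h
    · exact absurd h (by simp)
    · exact Or.inl (ihc h)
    · exact Or.inr (ihd h)
  | box c ih =>
    rcases h with h | h
    · exact absurd h (by simp)
    · exact ih h

/-- The model `M` realizes the type `t ⊆ S`. -/
def Real (S t : Set Form) (M : glSys.X) : Prop := ∀ a, a ∈ S → (glSys.s M a ↔ a ∈ t)

theorem exists_real (S : Set Form) (M : glSys.X) : ∃ t : {t : Set Form // t ⊆ S}, Real S t.1 M :=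
  ⟨⟨{a | a ∈ S ∧ glSys.s M a}, fun _ h => h.1⟩, fun _ ha => ⟨fun h => ⟨ha, h⟩, fun h => h.2⟩⟩

section main

variable (p q : Form)

/-- Worlds of the countermodel: inseparable pairs of types. -/
def IW : Type :=
  {x : Set Form × Set Form // x.1 ⊆ subf p ∧ x.2 ⊆ subf q ∧
    ¬ glSys.Sep (p.vars ∩ q.vars) (Real (subf p) x.1) (Real (subf q) x.2)}

instance iw_finite : Finite (IW p q) := by
  have h1 : {x : Set Form × Set Form | x.1 ⊆ subf p ∧ x.2 ⊆ subf q}.Finite := by
    have := (subf_finite p).finite_subsets.prod (subf_finite q).finite_subsets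
    exact this
  exact (h1.subset fun x hx => ⟨hx.1, hx.2.1⟩).to_subtype

instance sub_finite (a : Form) : Finite {t : Set Form // t ⊆ subf a} :=
  (subf_finite a).finite_subsets.to_subtype

/-- Accessibility. -/
def IR (x y : IW p q) : Prop :=
  (∀ c, box c ∈ x.1.1 → c ∈ y.1.1 ∧ box c ∈ y.1.1) ∧
  (∀ c, box c ∈ x.1.2 → c ∈ y.1.2 ∧ box c ∈ y.1.2) ∧
  ∃ c, (box c ∈ y.1.1 ∧ box c ∉ x.1.1) ∨ (box c ∈ y.1.2 ∧ box c ∉ x.1.2)

/-- The countermodel. -/
def IM (x : IW p q) : GLModel where
  W := IW p q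
  fin := iw_finite p q
  R := IR p q
  trans := by
    rintro x y z ⟨h1, h2, c, hc⟩ ⟨h3, h4, _⟩
    refine ⟨fun c hc => h3 c (h1 c hc).2, fun c hc => h4 c (h2 c hc).2, c, ?_⟩
    rcases hc with hc | hc
    · exact Or.inl ⟨(h3 c hc.1).2, hc.2⟩
    · exact Or.inr ⟨(h4 c hc.1).2, hc.2⟩
  irr := by
    rintro x ⟨_, _, c, hc⟩
    rcases hc with hc | hc
    · exact hc.2 hc.1
    · exact hc.2 hc.1
  V i x := var i ∈ x.1.1 ∨ var i ∈ x.1.2
  w := x

variable {p q}

/-- Inseparable refinements of inseparable conditions. -/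
theorem exists_world {P Q : glSys.X → Prop} (h : ¬ glSys.Sep (p.vars ∩ q.vars) P Q) :
    ∃ x : IW p q, (∃ M, P M ∧ Real (subf p) x.1.1 M) ∧ ∃ M, Q M ∧ Real (subf q) x.1.2 M := by
  obtain ⟨t, s, hts⟩ := Sys.exists_piece h
    (fun t : {t : Set Form // t ⊆ subf p} => Real (subf p) t.1)
    (fun t : {t : Set Form // t ⊆ subf q} => Real (subf q) t.1)
    (fun x _ => exists_real _ x) (fun x _ => exists_real _ x)
  exact ⟨⟨(t.1, s.1), t.2, s.2, fun hsep => hts (hsep.mono (fun x hx => hx.2)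
    (fun x hx => hx.2))⟩, Sys.nonempty_left hts, Sys.nonempty_right hts⟩

theorem box_left (x : IW p q) {a : Form} (ha : box a ∈ subf p) (hx : box a ∉ x.1.1) :
    ∃ y : IW p q, IR p q x y ∧ a ∉ y.1.1 := by
  have hns : ¬ glSys.Sep (p.vars ∩ q.vars)
      (fun M => (∀ c, box c ∈ x.1.1 → glSys.s M c ∧ glSys.s M (box c)) ∧
        glSys.s M (box a) ∧ ¬ glSys.s M a)
      (fun M => ∀ c, box c ∈ x.1.2 → glSys.s M c ∧ glSys.s M (box c)) := by
    rintro ⟨c, hc, h1, h2⟩
    apply x.2.2.2
    refine ⟨dia c, by rwa [vars_dia], ?_, ?_⟩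
    · intro M hM
      have hb : ¬ Sat M.R M.V (box a) M.w := fun h => hx ((hM _ ha).1 h)
      obtain ⟨v, hv1, hv2, hv3⟩ := GLModel.exists_max M a hb
      refine sat_dia.2 ⟨v, hv1, ?_⟩
      refine h1 (GLModel.at M v) ⟨?_, hv3, hv2⟩
      intro d hd
      have hd1 : Sat M.R M.V (box d) M.w := (hM _ (x.2.1 hd)).2 hd
      exact ⟨hd1 v hv1, fun u hu => hd1 u (M.trans _ _ _ hv1 hu)⟩
    · intro M hM hdia
      obtain ⟨v, hv1, hv2⟩ := sat_dia.1 hdia
      refine h2 (GLModel.at M v) ?_ hv2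
      intro d hd
      have hd1 : Sat M.R M.V (box d) M.w := (hM _ (x.2.2.1 hd)).2 hd
      exact ⟨hd1 v hv1, fun u hu => hd1 u (M.trans _ _ _ hv1 hu)⟩
  obtain ⟨y, ⟨M, ⟨hM1, hM2, hM3⟩, hM4⟩, N, hN1, hN2⟩ := exists_world hns
  refine ⟨y, ⟨?_, ?_, a, Or.inl ⟨(hM4 _ ha).1 hM2, hx⟩⟩, ?_⟩
  · intro c hc
    have hc' := x.2.1 hc
    exact ⟨(hM4 _ (subf_box p hc')).1 (hM1 c hc).1, (hM4 _ hc').1 (hM1 c hc).2⟩
  · intro c hc
    have hc' := x.2.2.1 hc
    exact ⟨(hN2 _ (subf_box q hc')).1 (hN1 c hc).1, (hN2 _ hc').1 (hN1 c hc).2⟩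
  · intro hay
    exact hM3 ((hM4 _ (subf_box p ha)).2 hay)

theorem box_right (x : IW p q) {a : Form} (ha : box a ∈ subf q) (hx : box a ∉ x.1.2) :
    ∃ y : IW p q, IR p q x y ∧ a ∉ y.1.2 := by
  have hns : ¬ glSys.Sep (p.vars ∩ q.vars)
      (fun M => ∀ c, box c ∈ x.1.1 → glSys.s M c ∧ glSys.s M (box c))
      (fun M => (∀ c, box c ∈ x.1.2 → glSys.s M c ∧ glSys.s M (box c)) ∧
        glSys.s M (box a) ∧ ¬ glSys.s M a) := by
    rintro ⟨c, hc, h1, h2⟩
    apply x.2.2.2
    refine ⟨box c, hc, ?_, ?_⟩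
    · intro M hM v hv1
      refine h1 (GLModel.at M v) ?_
      intro d hd
      have hd1 : Sat M.R M.V (box d) M.w := (hM _ (x.2.1 hd)).2 hd
      exact ⟨hd1 v hv1, fun u hu => hd1 u (M.trans _ _ _ hv1 hu)⟩
    · intro M hM hbox
      have hb : ¬ Sat M.R M.V (box a) M.w := fun h => hx ((hM _ ha).1 h)
      obtain ⟨v, hv1, hv2, hv3⟩ := GLModel.exists_max M a hb
      refine h2 (GLModel.at M v) ⟨?_, hv3, hv2⟩ (hbox v hv1)
      intro d hd
      have hd1 : Sat M.R M.V (box d) M.w := (hM _ (x.2.2.1 hd)).2 hd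
      exact ⟨hd1 v hv1, fun u hu => hd1 u (M.trans _ _ _ hv1 hu)⟩
  obtain ⟨y, ⟨M, hM1, hM4⟩, N, ⟨hN1, hN2, hN3⟩, hN4⟩ := exists_world hns
  refine ⟨y, ⟨?_, ?_, a, Or.inr ⟨(hN4 _ ha).1 hN2, hx⟩⟩, ?_⟩
  · intro c hc
    have hc' := x.2.1 hc
    exact ⟨(hM4 _ (subf_box p hc')).1 (hM1 c hc).1, (hM4 _ hc').1 (hM1 c hc).2⟩
  · intro c hc
    have hc' := x.2.2.1 hc
    exact ⟨(hN4 _ (subf_box q hc')).1 (hN1 c hc).1, (hN4 _ hc').1 (hN1 c hc).2⟩
  · intro hay
    exact hN3 ((hN4 _ (subf_box q ha)).2 hay)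

theorem real_left (x : IW p q) : ∃ M, Real (subf p) x.1.1 M := Sys.nonempty_left x.2.2.2

theorem real_right (x : IW p q) : ∃ M, Real (subf q) x.1.2 M := Sys.nonempty_right x.2.2.2

/-- Common variables. -/
theorem var_iff (x : IW p q) {i : ℕ} (h1 : var i ∈ subf p) (h2 : var i ∈ subf q) :
    var i ∈ x.1.1 ↔ var i ∈ x.1.2 := by
  have hv : (var i).vars ⊆ p.vars ∩ q.vars := by
    intro j hj
    have : j = i := hj
    subst this
    exact ⟨subf_var p h1, subf_var q h2⟩
  constructor
  · intro h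
    by_contra hn
    exact x.2.2.2 ⟨var i, hv, fun M hM => (hM _ h1).2 h, fun M hM h3 => hn ((hM _ h2).1 h3)⟩
  · intro h
    by_contra hn
    exact x.2.2.2 ⟨neg (var i), by rwa [vars_neg], fun M hM h3 => hn ((hM _ h1).1 h3),
      fun M hM h3 => h3 ((hM _ h2).2 h)⟩

theorem truth_left (z : IW p q) (a : Form) : a ∈ subf p →
    ∀ x : IW p q, (Sat (IM p q z).R (IM p q z).V a x ↔ a ∈ x.1.1) := by
  induction a with
  | var i =>
    intro ha x
    constructor
    · rintro (h | h)
      · exact h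
      · exact (var_iff x ha (x.2.2.1 h)).2 h
    · intro h; exact Or.inl h
  | bot =>
    intro ha x
    constructor
    · intro h; exact h.elim
    · intro h
      obtain ⟨M, hM⟩ := real_left x
      exact (hM _ ha).2 h
  | imp a b iha ihb =>
    intro ha x
    obtain ⟨M, hM⟩ := real_left x
    obtain ⟨ha1, hb1⟩ := subf_imp p ha
    rw [← hM _ ha, glSys.s_imp, hM _ ha1, hM _ hb1, ← iha ha1 x, ← ihb hb1 x]
    exact Iff.rfl
  | box a ih =>
    intro ha x
    have ha1 := subf_box p ha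
    constructor
    · intro h
      by_contra hn
      obtain ⟨y, hy1, hy2⟩ := box_left x ha hn
      exact hy2 ((ih ha1 y).1 (h y hy1))
    · intro h y hy
      exact (ih ha1 y).2 (hy.1 a h).1

theorem truth_right (z : IW p q) (a : Form) : a ∈ subf q →
    ∀ x : IW p q, (Sat (IM p q z).R (IM p q z).V a x ↔ a ∈ x.1.2) := by
  induction a with
  | var i =>
    intro ha x
    constructor
    · rintro (h | h)
      · exact (var_iff x (x.2.1 h) ha).1 h
      · exact h
    · intro h; exact Or.inr h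
  | bot =>
    intro ha x
    constructor
    · intro h; exact h.elim
    · intro h
      obtain ⟨M, hM⟩ := real_right x
      exact (hM _ ha).2 h
  | imp a b iha ihb =>
    intro ha x
    obtain ⟨M, hM⟩ := real_right x
    obtain ⟨ha1, hb1⟩ := subf_imp q ha
    rw [← hM _ ha, glSys.s_imp, hM _ ha1, hM _ hb1, ← iha ha1 x, ← ihb hb1 x]
    exact Iff.rfl
  | box a ih =>
    intro ha x
    have ha1 := subf_box q ha
    constructor
    · intro h
      by_contra hn
      obtain ⟨y, hy1, hy2⟩ := box_right x ha hn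
      exact hy2 ((ih ha1 y).1 (h y hy1))
    · intro h y hy
      exact (ih ha1 y).2 (hy.2.1 a h).1

/-- **Interpolation for finite GL-models.** If no formula in the common variables separates the
finite GL-models of `p` from those of `¬ q`, then `p ∧ ¬ q` has a finite GL-model. -/
theorem gl_interpolation
    (h : ¬ glSys.Sep (p.vars ∩ q.vars) (fun M => glSys.s M p) (fun M => ¬ glSys.s M q)) :
    ∃ M : GLModel, Sat M.R M.V p M.w ∧ ¬ Sat M.R M.V q M.w := by
  obtain ⟨x, ⟨M, hM1, hM2⟩, N, hN1, hN2⟩ := exists_world h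
  refine ⟨IM p q x, ?_, ?_⟩
  · exact (truth_left x p (subf_self p) x).2 ((hM2 _ (subf_self p)).1 hM1)
  · intro h1
    exact hN1 ((hN2 _ (subf_self q)).2 ((truth_right x q (subf_self q) x).1 h1))

end main

end H539R3.KC
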