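import Pool.Agent.H539R3.KC.GLPart

/-!
# The Kripke criterion without strong Kripke completeness
-/

namespace H539R3.KC
open H539R3.IEP H539R3.IEP.Form

universe u

/-! ### The three-element cluster -/

/-- The universal relation on three points. -/
def c3 : Fin 3 → Fin 3 → Prop := fun _ _ => True

/-- The system of pointed models on the three-element cluster. -/
def c3Sys : Sys where
  X := (ℕ → Fin 3 → Prop) × Fin 3
  s x a := Sat c3 x.1 a x.2
  s_bot _ h := h
  s_imp _ _ _ := Iff.rfl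

/-- The `σ`-type of a point. -/
def tp (σ : Set ℕ) (V : ℕ → Fin 3 → Prop) (u : Fin 3) : {τ : Set ℕ // τ ⊆ σ} :=
  ⟨{i | i ∈ σ ∧ V i u}, fun _ h => h.1⟩

theorem tp_eq_iff {σ : Set ℕ} {V : ℕ → Fin 3 → Prop} {u : Fin 3} {ρ : {τ : Set ℕ // τ ⊆ σ}} :
    tp σ V u = ρ ↔ ∀ i, i ∈ σ → (V i u ↔ i ∈ ρ.1) := by
  constructor
  · rintro rfl i hi
    exact ⟨fun h => ⟨hi, h⟩, fun h => h.2⟩
  · intro h
    apply Subtype.ext
    ext i
    constructor
    · rintro ⟨h1, h2⟩
      exact (h i h1).1 h2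
    · intro h1
      exact ⟨ρ.2 h1, (h i (ρ.2 h1)).2 h1⟩

open Classical in
/-- The characteristic formula of a type. -/
noncomputable def chi {σ : Set ℕ} (hσ : σ.Finite) (ρ : {τ : Set ℕ // τ ⊆ σ}) : Form :=
  bigAnd (hσ.toFinset.toList.map fun i => if i ∈ ρ.1 then var i else neg (var i))

theorem vars_chi {σ : Set ℕ} (hσ : σ.Finite) (ρ : {τ : Set ℕ // τ ⊆ σ}) :
    (chi hσ ρ).vars ⊆ σ := by
  classical
  refine vars_bigAnd _ ?_
  intro a ha
  obtain ⟨i, hi, rfl⟩ := List.mem_map.1 ha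
  have hi' : i ∈ σ := by simpa using hi
  have hv : (var i).vars ⊆ σ := by
    intro j hj
    have : j = i := hj
    rwa [this]
  split_ifs
  · exact hv
  · rwa [vars_neg]

theorem s_chi {σ : Set ℕ} (hσ : σ.Finite) (ρ : {τ : Set ℕ // τ ⊆ σ}) (x : c3Sys.X) :
    c3Sys.s x (chi hσ ρ) ↔ tp σ x.1 x.2 = ρ := by
  classical
  rw [chi, Sys.s_bigAnd, tp_eq_iff]
  constructor
  · intro h i hi
    have h1 := h _ (List.mem_map.2 ⟨i, by simpa using hi, rfl⟩)
    split_ifs at h1 with h2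
    · exact ⟨fun _ => h2, fun _ => h1⟩
    · exact ⟨fun h3 => absurd h3 h1, fun h3 => absurd h3 h2⟩
  · intro h a ha
    obtain ⟨i, hi, rfl⟩ := List.mem_map.1 ha
    have hi' : i ∈ σ := by simpa using hi
    split_ifs with h2
    · exact (h i hi').2 h2
    · intro h3
      exact h2 ((h i hi').1 h3)

theorem s_dia_c3 (x : c3Sys.X) (a : Form) :
    c3Sys.s x (dia a) ↔ ∃ u, c3Sys.s (x.1, u) a := by
  constructor
  · intro h
    obtain ⟨v, _, hv⟩ := sat_dia.1 h
    exact ⟨v, hv⟩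
  · rintro ⟨v, hv⟩
    exact sat_dia.2 ⟨v, trivial, hv⟩

/-- Inseparable sets of pointed models on the three-element cluster contain bisimilar models. -/
theorem c3_interpolation {σ : Set ℕ} (hσ : σ.Finite) {P Q : c3Sys.X → Prop}
    (h : ¬ c3Sys.Sep σ P Q) :
    ∃ x, P x ∧ ∃ y, Q y ∧ ∃ Z : Fin 3 → Fin 3 → Prop, Bisim σ c3 x.1 c3 y.1 Z ∧ Z x.2 y.2 := by
  have hfin : Finite {τ : Set ℕ // τ ⊆ σ} := hσ.finite_subsets.to_subtype
  let A : {τ : Set ℕ // τ ⊆ σ} × Set {τ : Set ℕ // τ ⊆ σ} → c3Sys.X → Prop := fun i x =>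
    tp σ x.1 x.2 = i.1 ∧ ∀ ρ, ρ ∈ i.2 ↔ ∃ u, tp σ x.1 u = ρ
  have hA : ∀ x, ∃ i, A i x := fun x => ⟨(tp σ x.1 x.2, {ρ | ∃ u, tp σ x.1 u = ρ}), rfl,
    fun ρ => Iff.rfl⟩
  obtain ⟨i, j, hij⟩ := Sys.exists_piece h A A (fun x _ => hA x) (fun x _ => hA x)
  obtain ⟨x, hx1, hx2, hx3⟩ := Sys.nonempty_left hij
  obtain ⟨y, hy1, hy2, hy3⟩ := Sys.nonempty_right hij
  have e1 : i.1 = j.1 := by
    by_contra hne
    refine hij ⟨chi hσ i.1, vars_chi _ _, ?_, ?_⟩
    · intro z hz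
      exact (s_chi hσ _ z).2 hz.2.1
    · intro z hz h1
      exact hne (((s_chi hσ _ z).1 h1).symm.trans hz.2.1)
  have e2 : ∀ ρ, ρ ∈ i.2 ↔ ρ ∈ j.2 := by
    intro ρ
    by_contra hne
    by_cases hρ : ρ ∈ i.2
    · have hρ2 : ρ ∉ j.2 := fun h1 => hne ⟨fun _ => h1, fun _ => hρ⟩
      refine hij ⟨dia (chi hσ ρ), by rw [vars_dia]; exact vars_chi _ _, ?_, ?_⟩
      · intro z hz
        obtain ⟨u, hu⟩ := (hz.2.2 ρ).1 hρ
        exact (s_dia_c3 z _).2 ⟨u, (s_chi hσ _ (z.1, u)).2 hu⟩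
      · intro z hz h1
        obtain ⟨u, hu⟩ := (s_dia_c3 z _).1 h1
        exact hρ2 ((hz.2.2 ρ).2 ⟨u, (s_chi hσ _ (z.1, u)).1 hu⟩)
    · have hρ2 : ρ ∈ j.2 := by
        by_contra h1
        exact hne ⟨fun h2 => absurd h2 hρ, fun h2 => absurd h2 h1⟩
      refine hij ⟨neg (dia (chi hσ ρ)), by rw [vars_neg, vars_dia]; exact vars_chi _ _, ?_, ?_⟩
      · intro z hz h1
        obtain ⟨u, hu⟩ := (s_dia_c3 z _).1 h1
        exact hρ ((hz.2.2 ρ).2 ⟨u, (s_chi hσ _ (z.1, u)).1 hu⟩)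
      · intro z hz h1
        apply h1
        obtain ⟨u, hu⟩ := (hz.2.2 ρ).1 hρ2
        exact (s_dia_c3 z _).2 ⟨u, (s_chi hσ _ (z.1, u)).2 hu⟩
  refine ⟨x, hx1, y, hy1, fun u v => tp σ x.1 u = tp σ y.1 v, ⟨?_, ?_, ?_⟩, ?_⟩
  · intro u v huv i hi
    have := tp_eq_iff.1 huv i hi
    rw [this]
    exact ⟨fun h => h.2, fun h => ⟨hi, h⟩⟩
  · intro u v u' _ _
    obtain ⟨v', hv'⟩ := (hy3 (tp σ x.1 u')).1 ((e2 _).1 ((hx3 _).2 ⟨u', rfl⟩))
    exact ⟨v', trivial, hv'.symm⟩
  · intro u v v' _ _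
    obtain ⟨u', hu'⟩ := (hx3 (tp σ y.1 v')).1 ((e2 _).2 ((hy3 _).2 ⟨v', rfl⟩))
    exact ⟨u', trivial, hu'⟩
  · exact hx2.trans (e1.trans hy2.symm)

/-! ### The logic -/

/-- The logic of all finite transitive irreflexive frames together with the three-element
cluster. -/
def LL : Set Form :=
  {a | (∀ M : GLModel, Sat M.R M.V a M.w) ∧ ∀ (V : ℕ → Fin 3 → Prop) (w : Fin 3), Sat c3 V a w}

theorem sat_subst {W : Type u} (R : W → W → Prop) (V : ℕ → W → Prop) (s : ℕ → Form) (a : Form) :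
    ∀ w, Sat R V (a.subst s) w ↔ Sat R (fun i w => Sat R V (s i) w) a w := by
  induction a with
  | var i => intro w; exact Iff.rfl
  | bot => intro w; exact Iff.rfl
  | imp a b iha ihb => intro w; exact imp_congr (iha w) (ihb w)
  | box a ih => intro w; exact forall_congr' fun v => imp_congr Iff.rfl (ih v)

theorem LL_normal : Normal LL where
  taut := by
    intro a ha
    exact ⟨fun M => ha (fun b => Sat M.R M.V b M.w) (fun h => h) (fun b c => Iff.rfl),
      fun V w => ha (fun b => Sat c3 V b w) (fun h => h) (fun b c => Iff.rfl)⟩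
  axK := ⟨fun M h1 h2 v hv => h1 v hv (h2 v hv), fun V w h1 h2 v hv => h1 v hv (h2 v hv)⟩
  mp := fun a b h1 h2 => ⟨fun M => h1.1 M (h2.1 M), fun V w => h1.2 V w (h2.2 V w)⟩
  nec := fun a h => ⟨fun M v _ => h.1 (M.at v), fun V w v _ => h.2 V v⟩
  subst := by
    intro s a h
    refine ⟨fun M => ?_, fun V w => ?_⟩
    · rw [sat_subst]
      exact h.1 { M with V := fun i w => Sat M.R M.V (s i) w }
    · rw [sat_subst]
      exact h.2 _ w

/-- Copy of a relation in a higher universe. -/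
def upR {W : Type} (R : W → W → Prop) : ULift.{u} W → ULift.{u} W → Prop :=
  fun x y => R x.down y.down

theorem sat_up {W : Type} (R : W → W → Prop) (V : ℕ → ULift.{u} W → Prop) (a : Form) :
    ∀ x, Sat (upR.{u} R) V a x ↔ Sat R (fun i w => V i (ULift.up w)) a x.down := by
  induction a with
  | var i => intro w; exact Iff.rfl
  | bot => intro w; exact Iff.rfl
  | imp a b iha ihb => intro w; exact imp_congr (iha w) (ihb w)
  | box a ih =>
    intro w
    constructor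
    · intro h v hv
      exact (ih (ULift.up v)).1 (h (ULift.up v) hv)
    · intro h v hv
      exact (ih v).2 (h v.down hv)

theorem frameFor_gl (M : GLModel) : FrameFor LL (upR.{u} M.R) := by
  intro a ha V w
  rw [sat_up]
  exact ha.1 { M with V := fun i w => V i (ULift.up w), w := w.down }

theorem frameFor_c3 : FrameFor LL (upR.{u} c3) := by
  intro a ha V w
  rw [sat_up]
  exact ha.2 _ _

theorem bisim_up {σ : Set ℕ} {W₁ W₂ : Type} {R₁ : W₁ → W₁ → Prop} {V₁ : ℕ → W₁ → Prop}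
    {R₂ : W₂ → W₂ → Prop} {V₂ : ℕ → W₂ → Prop} {Z : W₁ → W₂ → Prop}
    (h : Bisim σ R₁ V₁ R₂ V₂ Z) :
    Bisim σ (upR.{u} R₁) (fun i x => V₁ i x.down) (upR.{u} R₂) (fun i x => V₂ i x.down)
      (fun x y => Z x.down y.down) where
  atoms x y hxy i hi := h.atoms _ _ hxy i hi
  forth x y x' hxy hx := by
    obtain ⟨y', h1, h2⟩ := h.forth _ _ _ hxy hx
    exact ⟨ULift.up y', h1, h2⟩
  back x y y' hxy hy := by
    obtain ⟨x', h1, h2⟩ := h.back _ _ _ hxy hy
    exact ⟨ULift.up x', h1, h2⟩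

/-- The letterless formula distinguishing the two kinds of frames. -/
def delta : Form := imp (dia top) (dia (box bot))

theorem vars_delta : delta.vars = ∅ := by
  simp [delta, dia, top, neg, vars]

theorem delta_gl (M : GLModel) : Sat M.R M.V delta M.w := by
  intro h
  obtain ⟨v, hv, _⟩ := sat_dia.1 h
  obtain ⟨u, hu1, _, hu3⟩ := GLModel.exists_max M bot (fun h => h v hv)
  exact sat_dia.2 ⟨u, hu1, hu3⟩

theorem delta_c3 (V : ℕ → Fin 3 → Prop) (w : Fin 3) : ¬ Sat c3 V delta w := by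
  intro h
  obtain ⟨v, _, hv⟩ := sat_dia.1 (h (sat_dia.2 ⟨0, trivial, sat_top⟩))
  exact hv 0 trivial

theorem vars_finite (a : Form) : a.vars.Finite := by
  induction a with
  | var i => exact Set.finite_singleton _
  | bot => exact Set.finite_empty
  | imp a b iha ihb => exact iha.union ihb
  | box a ih => exact ih

/-- The logic has the Kripke criterion. -/
theorem LL_criterion : KripkeCriterion.{u} LL := by
  intro a b
  refine ⟨?_, not_hasInterpolant⟩
  intro hno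
  by_cases h1 : glSys.Sep (a.vars ∩ b.vars) (fun M => glSys.s M a) (fun M => ¬ glSys.s M b)
  · by_cases h2 : c3Sys.Sep (a.vars ∩ b.vars) (fun M => c3Sys.s M a) (fun M => ¬ c3Sys.s M b)
    · exfalso
      obtain ⟨c, hc1, hc2, hc3⟩ := h1
      obtain ⟨d, hd1, hd2, hd3⟩ := h2
      apply hno
      refine ⟨Form.or (Form.and delta c) (Form.and (neg delta) d), ?_, ⟨?_, ?_⟩, ⟨?_, ?_⟩⟩
      · rw [vars_or, vars_and, vars_and, vars_neg, vars_delta, Set.empty_union, Set.empty_union]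
        exact Set.union_subset hc1 hd1
      · intro M h
        exact sat_or.2 (Or.inl (sat_and.2 ⟨delta_gl M, hc2 M h⟩))
      · intro V w h
        exact sat_or.2 (Or.inr (sat_and.2 ⟨delta_c3 V w, hd2 (V, w) h⟩))
      · intro M h
        rcases sat_or.1 h with h | h
        · by_contra hb
          exact hc3 M hb (sat_and.1 h).2
        · exact absurd (delta_gl M) (sat_and.1 h).1
      · intro V w h
        rcases sat_or.1 h with h | h
        · exact absurd (sat_and.1 h).1 (delta_c3 V w)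
        · by_contra hb
          exact hd3 (V, w) hb (sat_and.1 h).2
    · obtain ⟨x, hx, y, hy, Z, hZ, hxy⟩ :=
        c3_interpolation ((vars_finite a).subset Set.inter_subset_left) h2
      refine ⟨ULift (Fin 3), ULift (Fin 3), upR c3, fun i z => x.1 i z.down, ULift.up x.2,
        upR c3, fun i z => y.1 i z.down, ULift.up y.2, fun z z' => Z z.down z'.down,
        frameFor_c3, frameFor_c3, bisim_up hZ, hxy, ?_, ?_⟩
      · rw [sat_up]; exact hx
      · rw [sat_up]; exact hy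
  · obtain ⟨M, hM1, hM2⟩ := gl_interpolation h1
    refine ⟨ULift M.W, ULift M.W, upR M.R, fun i z => M.V i z.down, ULift.up M.w,
      upR M.R, fun i z => M.V i z.down, ULift.up M.w, fun z z' => z.down = z'.down,
      frameFor_gl M, frameFor_gl M, bisim_up (Z := fun z z' => z = z') ⟨?_, ?_, ?_⟩, rfl, ?_, ?_⟩
    · rintro z z' rfl i _; exact Iff.rfl
    · rintro z z' z'' rfl h; exact ⟨z'', h, rfl⟩
    · rintro z z' z'' rfl h; exact ⟨z'', h, rfl⟩
    · rw [sat_up]; exact hM1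
    · rw [sat_up]; exact hM2

/-! ### No strong completeness -/

/-- Löb's formula relativized to `delta`. -/
def dloeb : Form := imp delta (imp (box (imp (box (var 0)) (var 0))) (box (var 0)))

theorem dloeb_mem : dloeb ∈ LL := by
  refine ⟨?_, fun V w h => absurd h (delta_c3 V w)⟩
  intro M _ h
  by_contra hn
  obtain ⟨v, hv1, hv2, hv3⟩ := GLModel.exists_max M (var 0) hn
  exact hv2 (h v hv1 hv3)

/-- The `i`-th step of an infinite path. -/
def stepF (i : ℕ) : Form := box (imp (var i) (dia (var (i + 1))))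

/-- A consistent set without Kripke models. -/
def Gam : Set Form := {a | a = delta ∨ a = dia (var 0) ∨ ∃ i, a = stepF i}

theorem sat_letterless {W : Type u} (R : W → W → Prop) (V V' : ℕ → W → Prop) (a : Form)
    (ha : a.vars ⊆ ∅) : ∀ w, Sat R V a w ↔ Sat R V' a w := by
  induction a with
  | var i => exact absurd (ha (show i ∈ ({i} : Set ℕ) from rfl)) (by simp)
  | bot => intro w; exact Iff.rfl
  | imp a b iha ihb =>
    intro w
    exact imp_congr (iha (fun _ h => ha (Or.inl h)) w) (ihb (fun _ h => ha (Or.inr h)) w)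
  | box a ih => intro w; exact forall_congr' fun v => imp_congr Iff.rfl (ih ha v)

theorem not_strong : ¬ StronglyKripkeComplete.{u} LL := by
  intro h
  have hcons : Consistent LL Gam := by
    intro l hl hmem
    obtain ⟨n, hn⟩ : ∃ n : ℕ, ∀ i, stepF i ∈ l → i < n := by
      have hf : {i : ℕ | stepF i ∈ l}.Finite := by
        have hinj : Set.InjOn stepF {i : ℕ | stepF i ∈ l} := by
          intro i _ j _ hij
          have h1 : box (imp (var i) (dia (var (i + 1)))) = box (imp (var j) (dia (var (j + 1)))) :=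
            hij
          injection h1 with h2
          injection h2 with h3 _
          injection h3
        exact Set.Finite.of_injOn (t := {a | a ∈ l}) (fun i hi => hi) hinj l.finite_toSet
      obtain ⟨n, hn⟩ := hf.bddAbove
      exact ⟨n + 1, fun i hi => Nat.lt_succ_of_le (hn hi)⟩
    let M : GLModel :=
      { W := Fin (n + 3)
        fin := inferInstance
        R := fun x y => x < y
        trans := fun x y z => lt_trans
        irr := fun x => lt_irrefl x
        V := fun i y => y.val = i + 1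
        w := 0 }
    have key : ∀ a, a ∈ l → Sat M.R M.V a M.w := by
      intro a ha
      rcases hl a ha with rfl | rfl | ⟨i, rfl⟩
      · exact delta_gl M
      · refine sat_dia.2 ⟨(⟨1, by omega⟩ : Fin (n + 3)), ?_, rfl⟩
        exact Fin.mk_lt_mk.2 (by omega : 0 < 1)
      · intro v _ hv
        have hi := hn i ha
        have hv' : v.val = i + 1 := hv
        refine sat_dia.2 ⟨(⟨i + 2, by omega⟩ : Fin (n + 3)), ?_, rfl⟩
        change v < (⟨i + 2, by omega⟩ : Fin (n + 3))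
        rw [Fin.lt_def, hv']
        change i + 1 < i + 2
        omega
    have key2 : ∀ l' : List Form, (∀ a, a ∈ l' → Sat M.R M.V a M.w) →
        Sat M.R M.V (l'.foldr imp bot) M.w → False := by
      intro l'
      induction l' with
      | nil => intro _ h; exact h
      | cons a l' ih =>
        intro h1 h2
        exact ih (fun b hb => h1 b (by simp [hb])) (h2 (h1 a (by simp)))
    exact key2 l key (hmem.1 M)
  obtain ⟨W, R, V, x, hF, hx⟩ := h Gam hcons
  have h1 : Sat R V delta x := hx _ (Or.inl rfl)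
  have h2 : Sat R V (dia (var 0)) x := hx _ (Or.inr (Or.inl rfl))
  have h3 : ∀ i, Sat R V (stepF i) x := fun i => hx _ (Or.inr (Or.inr ⟨i, rfl⟩))
  have h4 := hF dloeb dloeb_mem (fun _ y => ¬ ∃ i, V i y) x
  have h5 : Sat R (fun _ y => ¬ ∃ i, V i y) delta x :=
    (sat_letterless R V _ delta (by rw [vars_delta]) x).1 h1
  have h6 := h4 h5 (by
    intro y hy hbox
    rintro ⟨i, hi⟩
    obtain ⟨z, hz1, hz2⟩ := sat_dia.1 (h3 i y hy hi)
    exact hbox z hz1 ⟨i + 1, hz2⟩)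
  obtain ⟨y, hy1, hy2⟩ := sat_dia.1 h2
  exact h6 y hy1 ⟨0, hy2⟩

/-! ### No interpolation -/

/-- `◇(r ∧ p) ∧ ◇(r ∧ ¬p) ∧ ◇¬r ∧ □◇⊤` with `r = p₀`, `p = p₁`. -/
def phi₁ : Form :=
  Form.and (dia (Form.and (var 0) (var 1))) (Form.and (dia (Form.and (var 0) (neg (var 1))))
    (Form.and (dia (neg (var 0))) (box (dia top))))

/-- `◇(¬r ∧ q) ∧ ◇(¬r ∧ ¬q) ∧ ◇r` with `r = p₀`, `q = p₂`. -/
def phi₂ : Form :=
  Form.and (dia (Form.and (neg (var 0)) (var 2)))
    (Form.and (dia (Form.and (neg (var 0)) (neg (var 2)))) (dia (var 0)))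

theorem vars_phi₁ : phi₁.vars = {0, 1} := by
  simp only [phi₁, vars_and, vars_dia, vars_neg, vars, top]
  ext x; simp; tauto

theorem vars_phi₂ : phi₂.vars = {0, 2} := by
  simp only [phi₂, vars_and, vars_dia, vars_neg, vars]
  ext x; simp; tauto

theorem no_CIP : ¬ CIP LL := by
  intro h
  have hmem : imp phi₁ (neg phi₂) ∈ LL := by
    constructor
    · intro M h1 _
      obtain ⟨h2, _, _, h3⟩ := (by simpa only [phi₁, sat_and] using h1 :
        Sat M.R M.V (dia (Form.and (var 0) (var 1))) M.w ∧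
        Sat M.R M.V (dia (Form.and (var 0) (neg (var 1)))) M.w ∧
        Sat M.R M.V (dia (neg (var 0))) M.w ∧ Sat M.R M.V (box (dia top)) M.w)
      obtain ⟨v, hv, _⟩ := sat_dia.1 h2
      obtain ⟨u, hu1, _, hu3⟩ := GLModel.exists_max M bot (fun h => h v hv)
      obtain ⟨t, ht, _⟩ := sat_dia.1 (h3 u hu1)
      exact hu3 t ht
    · intro V w h1 h2
      simp only [phi₁, phi₂, sat_and, sat_dia, sat_neg, Sat] at h1 h2
      obtain ⟨⟨x, _, hx1, hx2⟩, ⟨y, _, hy1, hy2⟩, _, _⟩ := h1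
      obtain ⟨⟨z, _, hz1, hz2⟩, ⟨t, _, ht1, ht2⟩, _⟩ := h2
      have e1 : x.val ≠ y.val := fun e => hy2 ((Fin.ext e : x = y) ▸ hx2)
      have e2 : z.val ≠ t.val := fun e => ht2 ((Fin.ext e : z = t) ▸ hz2)
      have e3 : x.val ≠ z.val := fun e => hz1 ((Fin.ext e : x = z) ▸ hx1)
      have e4 : x.val ≠ t.val := fun e => ht1 ((Fin.ext e : x = t) ▸ hx1)
      have e5 : y.val ≠ z.val := fun e => hz1 ((Fin.ext e : y = z) ▸ hy1)
      have e6 : y.val ≠ t.val := fun e => ht1 ((Fin.ext e : y = t) ▸ hy1)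
      have := x.isLt
      have := y.isLt
      have := z.isLt
      have := t.isLt
      omega
  refine not_hasInterpolant (L := LL) (a := phi₁) (b := neg phi₂) ?_ (h _ _ hmem)
  have hvars : phi₁.vars ∩ (neg phi₂).vars ⊆ {0} := by
    rw [vars_neg, vars_phi₁, vars_phi₂]
    rintro i ⟨h1 | h1, h2 | h2⟩
    · exact h1
    · exact h1
    · exact h2
    · exfalso
      have h1' : i = 1 := h1
      have h2' : i = 2 := h2
      omega
  let V₁ : ℕ → Fin 3 → Prop := fun i x => (i = 0 ∧ x ≠ 2) ∨ (i = 1 ∧ x = 0)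
  let V₂ : ℕ → Fin 3 → Prop := fun i x => (i = 0 ∧ x = 0) ∨ (i = 2 ∧ x = 1)
  have hb : Bisim (phi₁.vars ∩ (neg phi₂).vars) c3 V₁ c3 V₂
      (fun x y => V₁ 0 x ↔ V₂ 0 y) := by
    refine ⟨?_, ?_, ?_⟩
    · intro x y hxy i hi
      have : i = 0 := hvars hi
      subst this
      exact hxy
    · intro x y x' _ _
      by_cases hx : V₁ 0 x'
      · exact ⟨0, trivial, ⟨fun _ => Or.inl ⟨rfl, rfl⟩, fun _ => hx⟩⟩
      · refine ⟨1, trivial, ⟨fun h => absurd h hx, fun h => ?_⟩⟩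
        simp [V₂] at h
    · intro x y y' _ _
      by_cases hy : V₂ 0 y'
      · exact ⟨0, trivial, ⟨fun _ => hy, fun _ => Or.inl ⟨rfl, by simp⟩⟩⟩
      · refine ⟨2, trivial, ⟨fun h => ?_, fun h => absurd h hy⟩⟩
        simp [V₁] at h
  refine ⟨ULift (Fin 3), ULift (Fin 3), upR.{0} c3, fun i z => V₁ i z.down, ULift.up 0,
    upR.{0} c3, fun i z => V₂ i z.down, ULift.up 0, _, frameFor_c3, frameFor_c3,
    bisim_up hb, ?_, ?_, ?_⟩
  · change V₁ 0 0 ↔ V₂ 0 0
    simp [V₁, V₂]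
  · rw [sat_up]
    change Sat c3 V₁ phi₁ 0
    simp only [phi₁, sat_and, sat_dia, sat_neg, Sat]
    refine ⟨⟨0, trivial, Or.inl ⟨rfl, by simp⟩, Or.inr ⟨rfl, rfl⟩⟩,
      ⟨1, trivial, Or.inl ⟨rfl, by simp⟩, by simp [V₁]⟩, ⟨2, trivial, by simp [V₁]⟩, ?_⟩
    intro v _
    exact ⟨0, trivial, sat_top⟩
  · rw [sat_up]
    change ¬ ¬ Sat c3 V₂ phi₂ 0
    simp only [phi₂, sat_and, sat_dia, sat_neg, Sat, not_not]
    exact ⟨⟨1, trivial, by simp [V₂], Or.inr ⟨rfl, rfl⟩⟩,
      ⟨2, trivial, by simp [V₂], by simp [V₂]⟩, ⟨0, trivial, Or.inl ⟨rfl, rfl⟩⟩⟩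

end H539R3.KC
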