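import Pool.Agent.H539R3.KC.Defs

/-!
# Separation by formulas of a restricted signature
-/

namespace H539R3.KC
open H539R3.IEP H539R3.IEP.Form

universe u v

section basic
variable {W : Type u} {R : W → W → Prop} {V : ℕ → W → Prop}

theorem sat_neg {a : Form} {w : W} : Sat R V (neg a) w ↔ ¬ Sat R V a w := Iff.rfl

theorem sat_top {w : W} : Sat R V top w := fun h => h

theorem sat_and {a b : Form} {w : W} :
    Sat R V (Form.and a b) w ↔ (Sat R V a w ∧ Sat R V b w) := by
  unfold Form.and neg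
  simp only [Sat]
  tauto

theorem sat_or {a b : Form} {w : W} :
    Sat R V (Form.or a b) w ↔ (Sat R V a w ∨ Sat R V b w) := by
  unfold Form.or neg
  simp only [Sat]
  tauto

theorem sat_dia {a : Form} {w : W} :
    Sat R V (dia a) w ↔ ∃ v, R w v ∧ Sat R V a v := by
  unfold dia neg
  simp only [Sat]
  constructor
  · intro h
    by_contra h1
    push Not at h1
    exact h fun v hv => h1 v hv
  · rintro ⟨v, h1, h2⟩ h3
    exact h3 v h1 h2

end basic

theorem vars_neg (a : Form) : (neg a).vars = a.vars := by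
  simp [neg, vars]

theorem vars_and (a b : Form) : (Form.and a b).vars = a.vars ∪ b.vars := by
  simp [Form.and, neg, vars]

theorem vars_or (a b : Form) : (Form.or a b).vars = a.vars ∪ b.vars := by
  simp [Form.or, neg, vars]

theorem vars_dia (a : Form) : (dia a).vars = a.vars := by
  simp [dia, neg, vars]

/-- Bisimulation invariance. -/
theorem Bisim.sat {σ : Set ℕ} {W₁ : Type u} {W₂ : Type v} {R₁ : W₁ → W₁ → Prop}
    {V₁ : ℕ → W₁ → Prop} {R₂ : W₂ → W₂ → Prop} {V₂ : ℕ → W₂ → Prop} {Z : W₁ → W₂ → Prop}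
    (hZ : Bisim σ R₁ V₁ R₂ V₂ Z) (a : Form) (ha : a.vars ⊆ σ) :
    ∀ x y, Z x y → (Sat R₁ V₁ a x ↔ Sat R₂ V₂ a y) := by
  induction a with
  | var i => intro x y h; exact hZ.atoms x y h i (ha rfl)
  | bot => intro x y _; exact Iff.rfl
  | imp a b iha ihb =>
    intro x y h
    exact imp_congr (iha (fun _ h => ha (Or.inl h)) x y h) (ihb (fun _ h => ha (Or.inr h)) x y h)
  | box a ih =>
    intro x y h
    constructor
    · intro h1 y' hy'
      obtain ⟨x', hx', hz⟩ := hZ.back x y y' h hy'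
      exact (ih ha x' y' hz).1 (h1 x' hx')
    · intro h1 x' hx'
      obtain ⟨y', hy', hz⟩ := hZ.forth x y x' h hx'
      exact (ih ha x' y' hz).2 (h1 y' hy')

/-- The easy half of the criterion. -/
theorem not_hasInterpolant {L : Set Form} {a b : Form} (h : BisimilarModels.{u} L a b) :
    ¬ HasInterpolant L a b := by
  rintro ⟨c, hc, h1, h2⟩
  obtain ⟨W₁, W₂, R₁, V₁, x₁, R₂, V₂, x₂, Z, hF₁, hF₂, hZ, hx, ha, hb⟩ := h
  have h3 : Sat R₁ V₁ c x₁ := hF₁ _ h1 V₁ x₁ ha
  have h4 : Sat R₂ V₂ c x₂ := (hZ.sat c hc x₁ x₂ hx).1 h3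
  exact hb (hF₂ _ h2 V₂ x₂ h4)

/-- Finite disjunctions. -/
def bigOr : List Form → Form
  | [] => bot
  | a :: l => Form.or a (bigOr l)

/-- Finite conjunctions. -/
def bigAnd : List Form → Form
  | [] => top
  | a :: l => Form.and a (bigAnd l)

theorem vars_bigOr {σ : Set ℕ} (l : List Form) (h : ∀ a, a ∈ l → a.vars ⊆ σ) :
    (bigOr l).vars ⊆ σ := by
  induction l with
  | nil => exact Set.empty_subset _
  | cons a l ih =>
    rw [bigOr, vars_or]
    exact Set.union_subset (h a (by simp)) (ih fun b hb => h b (by simp [hb]))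

theorem vars_bigAnd {σ : Set ℕ} (l : List Form) (h : ∀ a, a ∈ l → a.vars ⊆ σ) :
    (bigAnd l).vars ⊆ σ := by
  induction l with
  | nil => rw [bigAnd, top, vars_neg]; exact Set.empty_subset _
  | cons a l ih =>
    rw [bigAnd, vars_and]
    exact Set.union_subset (h a (by simp)) (ih fun b hb => h b (by simp [hb]))

/-- A set of pointed Kripke models, with their truth relation, which we treat abstractly. -/
structure Sys where
  X : Type v
  s : X → Form → Prop
  s_bot : ∀ x, ¬ s x bot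
  s_imp : ∀ x a b, s x (imp a b) ↔ (s x a → s x b)

namespace Sys
variable (K : Sys.{v})

theorem s_neg (x : K.X) (a : Form) : K.s x (neg a) ↔ ¬ K.s x a := by
  unfold neg
  rw [K.s_imp]
  exact ⟨fun h h1 => K.s_bot x (h h1), fun h h1 => absurd h1 h⟩

theorem s_top (x : K.X) : K.s x top := by
  unfold top
  rw [K.s_neg]
  exact K.s_bot x

theorem s_or (x : K.X) (a b : Form) : K.s x (Form.or a b) ↔ (K.s x a ∨ K.s x b) := by
  unfold Form.or
  rw [K.s_imp, K.s_neg]
  tauto

theorem s_and (x : K.X) (a b : Form) : K.s x (Form.and a b) ↔ (K.s x a ∧ K.s x b) := by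
  unfold Form.and
  rw [K.s_neg, K.s_imp, K.s_neg]
  tauto

theorem s_bigOr (x : K.X) (l : List Form) : K.s x (bigOr l) ↔ ∃ a, a ∈ l ∧ K.s x a := by
  induction l with
  | nil => simp [bigOr, K.s_bot]
  | cons a l ih => rw [bigOr, K.s_or, ih]; simp

theorem s_bigAnd (x : K.X) (l : List Form) : K.s x (bigAnd l) ↔ ∀ a, a ∈ l → K.s x a := by
  induction l with
  | nil => simp [bigAnd, K.s_top]
  | cons a l ih => rw [bigAnd, K.s_and, ih]; simp

/-- `P` and `Q` are separated by a formula with variables in `σ`. -/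
def Sep (σ : Set ℕ) (P Q : K.X → Prop) : Prop :=
  ∃ c : Form, c.vars ⊆ σ ∧ (∀ x, P x → K.s x c) ∧ (∀ x, Q x → ¬ K.s x c)

variable {K} {σ : Set ℕ}

theorem Sep.mono {P P' Q Q' : K.X → Prop} (h : K.Sep σ P Q) (hP : ∀ x, P' x → P x)
    (hQ : ∀ x, Q' x → Q x) : K.Sep σ P' Q' := by
  obtain ⟨c, h1, h2, h3⟩ := h
  exact ⟨c, h1, fun x hx => h2 x (hP x hx), fun x hx => h3 x (hQ x hx)⟩

theorem nonempty_left {P Q : K.X → Prop} (h : ¬ K.Sep σ P Q) : ∃ x, P x := by
  by_contra h1
  push Not at h1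
  exact h ⟨bot, Set.empty_subset _, fun x hx => absurd hx (h1 x), fun x _ => K.s_bot x⟩

theorem nonempty_right {P Q : K.X → Prop} (h : ¬ K.Sep σ P Q) : ∃ x, Q x := by
  by_contra h1
  push Not at h1
  exact h ⟨top, by rw [top, vars_neg]; exact Set.empty_subset _, fun x _ => K.s_top x,
    fun x hx => absurd hx (h1 x)⟩

theorem sep_iUnion {ι κ : Type*} [Finite ι] [Finite κ] {P : ι → K.X → Prop}
    {Q : κ → K.X → Prop} (h : ∀ i j, K.Sep σ (P i) (Q j)) :
    K.Sep σ (fun x => ∃ i, P i x) (fun x => ∃ j, Q j x) := by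
  choose c hc1 hc2 hc3 using h
  have := Fintype.ofFinite ι
  have := Fintype.ofFinite κ
  refine ⟨bigOr (Finset.univ.toList.map fun i => bigAnd (Finset.univ.toList.map fun j => c i j)),
    ?_, ?_, ?_⟩
  · refine vars_bigOr _ ?_
    intro a ha
    obtain ⟨i, _, rfl⟩ := List.mem_map.1 ha
    refine vars_bigAnd _ ?_
    intro a ha
    obtain ⟨j, _, rfl⟩ := List.mem_map.1 ha
    exact hc1 i j
  · rintro x ⟨i, hi⟩
    rw [s_bigOr]
    refine ⟨_, List.mem_map.2 ⟨i, by simp, rfl⟩, ?_⟩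
    rw [s_bigAnd]
    intro a ha
    obtain ⟨j, _, rfl⟩ := List.mem_map.1 ha
    exact hc2 i j x hi
  · rintro x ⟨j, hj⟩ hx
    rw [s_bigOr] at hx
    obtain ⟨a, ha, hx⟩ := hx
    obtain ⟨i, _, rfl⟩ := List.mem_map.1 ha
    rw [s_bigAnd] at hx
    exact hc3 i j x hj (hx _ (List.mem_map.2 ⟨j, by simp, rfl⟩))

/-- If `P` and `Q` are inseparable and covered by finitely many sets each, then two of the
pieces are inseparable. -/
theorem exists_piece {ι κ : Type*} [Finite ι] [Finite κ] {P Q : K.X → Prop}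
    (h : ¬ K.Sep σ P Q) (A : ι → K.X → Prop) (B : κ → K.X → Prop)
    (hA : ∀ x, P x → ∃ i, A i x) (hB : ∀ x, Q x → ∃ j, B j x) :
    ∃ i j, ¬ K.Sep σ (fun x => P x ∧ A i x) (fun x => Q x ∧ B j x) := by
  by_contra hcon
  push Not at hcon
  refine h ((sep_iUnion hcon).mono ?_ ?_)
  · intro x hx
    obtain ⟨i, hi⟩ := hA x hx
    exact ⟨i, hx, hi⟩
  · intro x hx
    obtain ⟨i, hi⟩ := hB x hx
    exact ⟨i, hx, hi⟩

end Sys

end H539R3.KC
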